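import Pool.Agent.Work.MP_6f78fb_rk.Interface

/-! # Block FILL (MP_6f78fb_co): filling the marks. Written by helper4. -/

set_option autoImplicit false

open scoped BigOperators TensorProduct
open Classical

noncomputable section

namespace Pool.RookLC.helper4

variable {n m : ℕ}

/-- two rooks in one column -/
theorem fill_XX {r : ℕ} {a b : Fin n} (hab : a ≠ b) (j : Fin m) :
    (MvPolynomial.X (a, j) * MvPolynomial.X (b, j) : Poly n m) ∈ grI (UZ n m r) := by
  have h0 : (MvPolynomial.X (a, j) * MvPolynomial.X (b, j) : Poly n m) ≠ 0 :=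
    mul_ne_zero (MvPolynomial.X_ne_zero _) (MvPolynomial.X_ne_zero _)
  have hh : (MvPolynomial.X (a, j) * MvPolynomial.X (b, j) : Poly n m).IsHomogeneous 2 :=
    (MvPolynomial.isHomogeneous_X ℂ (a, j)).mul (MvPolynomial.isHomogeneous_X ℂ (b, j))
  refine Ideal.subset_span ⟨_, ?_, h0, ?_⟩
  · intro x hx
    rw [map_mul, MvPolynomial.eval_X, MvPolynomial.eval_X]
    obtain ⟨⟨h01, _, hcol⟩, _⟩ := hx
    rcases h01 (a, j) with h1 | h1
    · rw [h1, zero_mul]
    · rcases h01 (b, j) with h2 | h2
      · rw [h2, mul_zero]
      · exact absurd (hcol a b j h1 h2) hab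
  · unfold topForm
    rw [hh.totalDegree h0, MvPolynomial.homogeneousComponent_of_mem hh, if_pos rfl]

/-- nonvalid configurations give elements of the ideal -/
theorem fill_nonvalid {r : ℕ} {A : Cf n m} (hA : ¬ Valid A) : mon A ∈ grI (UZ n m r) := by
  unfold Valid at hA
  push Not at hA
  obtain ⟨a, b, j, ha, hb, hab⟩ := hA
  have h1 : mon A = (MvPolynomial.X (a, j) * MvPolynomial.X (b, j)) *
      ∏ c ∈ (Finset.univ.erase a).erase b, val c (A c) := by
    unfold mon
    rw [← Finset.mul_prod_erase Finset.univ _ (Finset.mem_univ a),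
      ← Finset.mul_prod_erase (Finset.univ.erase a) _
        (Finset.mem_erase.2 ⟨hab.symm, Finset.mem_univ b⟩), ha, hb, ← mul_assoc]
    rfl
  rw [h1]
  exact Ideal.mul_mem_right _ _ (fill_XX hab j)

/-- the states which fill a state -/
def opts : St m → Finset (St m)
  | none => {none}
  | some none => Finset.univ.image (fun j : Fin m => (some (some j) : St m))
  | some (some j) => {some (some j)}

theorem val_opts (a : Fin n) (s : St m) : val a s = ∑ t ∈ opts s, val a t := by
  rcases s with _ | _ | j
  · simp [opts]
  · rw [opts, Finset.sum_image]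
    · rfl
    · intro x _ y _ h
      simpa using h
  · simp [opts]

theorem mon_fill (α : Cf n m) :
    mon α = ∑ A ∈ Fintype.piFinset (fun a => opts (α a)), mon A := by
  unfold mon
  rw [← Finset.prod_univ_sum]
  exact Finset.prod_congr rfl fun a _ => val_opts a (α a)

theorem mem_opts {s t : St m} : t ∈ opts s ↔
    t ≠ some none ∧ (t = s ∨ (s = some none ∧ t ≠ none)) := by
  rcases s with _ | _ | j
  · simp only [opts, Finset.mem_singleton]
    constructor
    · rintro rfl; simp
    · rintro ⟨_, h | ⟨h, _⟩⟩
      · exact h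
      · simp at h
  · simp only [opts, Finset.mem_image, Finset.mem_univ, true_and]
    constructor
    · rintro ⟨j, rfl⟩; simp
    · rintro ⟨h1, h | h⟩
      · exact absurd h h1
      · rcases t with _ | _ | j
        · exact absurd rfl h
        · exact absurd rfl h1
        · exact ⟨j, rfl⟩
  · simp only [opts, Finset.mem_singleton]
    constructor
    · rintro rfl; simp
    · rintro ⟨_, h | ⟨h, _⟩⟩
      · exact h
      · simp at h

theorem tt_zero {A : Cf n m} : tt A = 0 ↔ ∀ a, A a ≠ some none := by
  unfold tt
  rw [Finset.card_eq_zero, Finset.filter_eq_empty_iff]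
  constructor
  · intro h a; exact h (Finset.mem_univ a)
  · intro h a _; exact h a

theorem sum_fill (g : Fn n m) (A : Cf n m) :
    (∑ α : Cf n m, if A ∈ Fintype.piFinset (fun a => opts (α a)) then g α else 0) =
      if tt A = 0 then ∑ T ∈ (supp A).powerset, g (mk A T) else 0 := by
  by_cases hA : tt A = 0
  · rw [if_pos hA]
    have hA' := tt_zero.1 hA
    rw [← Finset.sum_filter]
    symm
    refine Finset.sum_bij (fun T _ => mk A T) ?_ ?_ ?_ ?_
    · intro T hT
      rw [Finset.mem_powerset] at hT
      rw [Finset.mem_filter]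
      refine ⟨Finset.mem_univ _, ?_⟩
      rw [Fintype.mem_piFinset]
      intro a
      rw [mem_opts]
      refine ⟨hA' a, ?_⟩
      by_cases ha : a ∈ T
      · right
        have h1 := hT ha
        simp only [supp, Finset.mem_filter, Finset.mem_univ, true_and] at h1
        exact ⟨by simp [mk, ha], h1⟩
      · left; simp [mk, ha]
    · intro T _ T' _ h
      ext a
      have h1 := congrFun h a
      simp only [mk] at h1
      by_cases ha : a ∈ T <;> by_cases ha' : a ∈ T' <;> simp only [ha, ha', if_true, if_false] at h1 ⊢
      · exact absurd h1.symm (hA' a)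
      · exact absurd h1 (hA' a)
    · intro α hα
      rw [Finset.mem_filter, Fintype.mem_piFinset] at hα
      have h1 := fun a => mem_opts.1 (hα.2 a)
      refine ⟨Finset.univ.filter (fun a => α a = some none), ?_, ?_⟩
      · rw [Finset.mem_powerset]
        intro a ha
        simp only [Finset.mem_filter, Finset.mem_univ, true_and] at ha
        simp only [supp, Finset.mem_filter, Finset.mem_univ, true_and]
        rcases (h1 a).2 with h | h
        · rw [ha] at h
          exact absurd h (hA' a)
        · exact h.2
      · funext a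
        simp only [mk, Finset.mem_filter, Finset.mem_univ, true_and]
        by_cases ha : α a = some none
        · rw [if_pos ha, ha]
        · rw [if_neg ha]
          rcases (h1 a).2 with h | h
          · exact h
          · exact absurd h.1 ha
    · intro T _
      rfl
  · rw [if_neg hA]
    refine Finset.sum_eq_zero fun α _ => ?_
    rw [if_neg]
    intro h
    rw [Fintype.mem_piFinset] at h
    exact hA (tt_zero.2 fun a => (mem_opts.1 (h a)).1)

theorem Th_fill (g : Fn n m) :
    Th n m g = ∑ A : Cf n m, (if tt A = 0 then ∑ T ∈ (supp A).powerset, g (mk A T) else 0) •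
      mon A := by
  change ∑ α, g α • mon α = _
  have h1 : ∀ α : Cf n m, g α • mon α = ∑ A : Cf n m,
      (if A ∈ Fintype.piFinset (fun a => opts (α a)) then g α else 0) • mon A := by
    intro α
    conv_lhs => rw [mon_fill α, Finset.smul_sum]
    rw [← Finset.sum_filter_add_sum_filter_not Finset.univ
      (fun A => A ∈ Fintype.piFinset (fun a => opts (α a)))]
    have h2 : ∑ A ∈ Finset.univ.filter
        (fun A => ¬ A ∈ Fintype.piFinset (fun a => opts (α a))),
        (if A ∈ Fintype.piFinset (fun a => opts (α a)) then g α else 0) • mon A = 0 := by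
      refine Finset.sum_eq_zero fun A hA => ?_
      rw [if_neg (Finset.mem_filter.1 hA).2, zero_smul]
    rw [h2, add_zero]
    refine Finset.sum_congr ?_ ?_
    · ext A; simp
    · intro A hA
      rw [if_pos (Finset.mem_filter.1 hA).2]
  rw [Finset.sum_congr rfl fun α _ => h1 α, Finset.sum_comm]
  refine Finset.sum_congr rfl fun A _ => ?_
  rw [← Finset.sum_smul, sum_fill]

theorem stmt_FILL : Stmt_FILL := by
  intro n m r g _
  have h1 : Th n m (Lop n m g) = ∑ A : Cf n m,
      (if Valid A ∧ tt A = 0 then ∑ T ∈ (supp A).powerset, g (mk A T) else 0) • mon A := rfl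
  rw [h1, Th_fill, ← Finset.sum_sub_distrib]
  refine Ideal.sum_mem _ fun A _ => ?_
  by_cases hA : tt A = 0
  · by_cases hV : Valid A
    · rw [if_pos ⟨hV, hA⟩, if_pos hA, sub_self]
      exact Ideal.zero_mem _
    · rw [if_neg (fun h => hV h.1), if_pos hA, zero_smul, zero_sub, ← neg_smul]
      rw [MvPolynomial.smul_eq_C_mul]
      exact Ideal.mul_mem_left _ _ (fill_nonvalid hV)
  · rw [if_neg (fun h => hA h.2), if_neg hA, sub_self]
    exact Ideal.zero_mem _

end Pool.RookLC.helper4
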